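import Pool.Agent.TH275.QM.Abel

/-! # Trigonometric Abel-type equations: on average at most three closed solutions

The equation `x' = A(t) x^p + B(t) x^q`, `p > q ≥ 2`, with a variable mean value of `B` (for
trigonometric polynomials: a variable constant coefficient of `B`). -/

open Set MeasureTheory
open scoped ENNReal NNReal

namespace Pool.Agent.Results.MP_bb703b_an.MeanAtMostThree

/-- The closed solutions (`φ 0 = φ T`) of `x' = A(t) x^p + (B(t) + s) x^q` on `[0, T]` with values in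
`V`, as functions on `[0, T]`. -/
def closedSols (p q : ℕ) (A B : ℝ → ℝ) (T s : ℝ) (V : Set ℝ) : Set (Icc 0 T → ℝ) :=
  {g | ∃ φ : ℝ → ℝ, (∀ t ∈ Icc 0 T, HasDerivWithinAt φ
      (A t * φ t ^ p + (B t + s) * φ t ^ q) (Icc 0 T) t) ∧ φ 0 = φ T ∧
    (∀ t ∈ Icc 0 T, φ t ∈ V) ∧ g = (Icc 0 T).domRestrict φ}

/-- `- mean(B) - mean(A⁺) R^l` (means over `[0, T]`) -/
noncomputable def lower (l : ℕ) (A B : ℝ → ℝ) (T R : ℝ) : ℝ :=
  -((∫ t in (0:ℝ)..T, (B t + max (A t) 0 * R ^ l)) / T)

/-- `- mean(B) + mean(A⁻) R^l` (means over `[0, T]`) -/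
noncomputable def upper (l : ℕ) (A B : ℝ → ℝ) (T R : ℝ) : ℝ :=
  -((∫ t in (0:ℝ)..T, (B t - max (-A t) 0 * R ^ l)) / T)

/-- `N s` has at most `g s` elements, where `g ≥ 0` is measurable with integral at most `K`. -/
def IntegralLE {α : Type} (N : ℝ → Set α) (K : ℝ) : Prop :=
  ∃ g : ℝ → ℝ≥0∞, Measurable g ∧ (∀ s, ((N s).encard : ℝ≥0∞) ≤ g s) ∧
    ∫⁻ s, g s ≤ ENNReal.ofReal K

lemma upper_sub_lower {l : ℕ} {A B : ℝ → ℝ} (hA : Continuous A) (hB : Continuous B) (T R : ℝ) :
    upper l A B T R - lower l A B T R = (∫ t in (0:ℝ)..T, |A t|) / T * R ^ l := by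
  unfold upper lower
  have e : (∫ t in (0:ℝ)..T, (B t + max (A t) 0 * R ^ l)) -
      (∫ t in (0:ℝ)..T, (B t - max (-A t) 0 * R ^ l)) = (∫ t in (0:ℝ)..T, |A t|) * R ^ l := by
    rw [← intervalIntegral.integral_sub (by apply Continuous.intervalIntegrable; fun_prop)
      (by apply Continuous.intervalIntegrable; fun_prop), ← intervalIntegral.integral_mul_const]
    apply intervalIntegral.integral_congr
    intro t _
    simp only
    rcases le_total 0 (A t) with h | h
    · rw [max_eq_left h, max_eq_right (by linarith), abs_of_nonneg h]; ring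
    · rw [max_eq_right h, max_eq_left (by linarith), abs_of_nonpos h]; ring
  calc _ = ((∫ t in (0:ℝ)..T, (B t + max (A t) 0 * R ^ l)) -
      (∫ t in (0:ℝ)..T, (B t - max (-A t) 0 * R ^ l))) / T := by ring
    _ = _ := by rw [e]; ring

lemma pos_eq {k l : ℕ} {A B : ℝ → ℝ} {T R s : ℝ} :
    closedSols (k + 1 + l) (k + 1) A B T s (Ioc 0 R) = TH275.QM.Abel.posSols k l A B T R s := by
  ext g
  constructor
  · rintro ⟨φ, h1, h2, h3, rfl⟩
    exact ⟨φ, ⟨h1, h2, h3⟩, rfl⟩
  · rintro ⟨φ, ⟨h1, h2, h3⟩, rfl⟩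
    exact ⟨φ, h1, h2, h3, rfl⟩

/-- reflection `x ↦ -x` -/
lemma refl {k l : ℕ} {A B : ℝ → ℝ} {T R s : ℝ} {φ : ℝ → ℝ}
    (h1 : ∀ t ∈ Icc 0 T, HasDerivWithinAt φ
      (A t * φ t ^ (k + 1 + l) + (B t + s) * φ t ^ (k + 1)) (Icc 0 T) t)
    (h2 : φ 0 = φ T) (h3 : ∀ t ∈ Icc 0 T, φ t ∈ Ico (-R) 0) :
    TH275.QM.Abel.IsPos k l (fun t => (-1) ^ k * ((-1) ^ l * A t)) (fun t => (-1) ^ k * B t) T R
      ((-1) ^ k * s) (fun t => -φ t) := by
  refine ⟨fun t ht => ?_, by simp only [h2], fun t ht => ?_⟩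
  · refine (h1 t ht).neg.congr_deriv ?_
    have e1 : (-φ t) ^ (k + 1 + l) = (-1) ^ (k + 1 + l) * φ t ^ (k + 1 + l) := neg_pow _ _
    have e2 : (-φ t) ^ (k + 1) = (-1) ^ (k + 1) * φ t ^ (k + 1) := neg_pow _ _
    have e3 : ((-1 : ℝ) ^ k) * (-1) ^ k = 1 := by rw [← mul_pow]; simp
    have e4 : ((-1 : ℝ) ^ l) * (-1) ^ l = 1 := by rw [← mul_pow]; simp
    rw [e1, e2, pow_add (-1 : ℝ) (k + 1) l, pow_succ]
    linear_combination (φ t ^ (k + 1 + l) * A t * (-1) ^ l * (-1) ^ l +
      φ t ^ (k + 1) * (B t + s)) * e3 + (φ t ^ (k + 1 + l) * A t) * e4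
  · have := h3 t ht
    exact ⟨by linarith [this.2], by linarith [this.1]⟩

/-- **On average at most three closed solutions.** Let `p > q ≥ 2` and let `A, B` be continuous (for
example trigonometric polynomials, `T = 2π`). Consider `x' = A(t) x^p + (B(t) + s) x^q`.

(1) The closed solutions with `|x| ≤ R` are the positive ones, the negative ones and `x = 0`.

(2) There are no closed solutions with `0 < x ≤ R` unless `lower ≤ s ≤ upper`, and the integral over
`s` of their number is at most `upper - lower`.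

(3) The same holds for the closed solutions with `-R ≤ x < 0`, if in `lower` and `upper` the function
`A` is replaced by `(-1)^(p-q) A`.

In both cases `upper - lower = mean(|A|) R^(p-q)`. -/
theorem result (p q : ℕ) (hq : 2 ≤ q) (hpq : q < p) (A B : ℝ → ℝ) (hA : Continuous A)
    (hB : Continuous B) (T R : ℝ) (hT : 0 < T) (hR : 0 < R) :
    (∀ s, closedSols p q A B T s (Icc (-R) R) =
      closedSols p q A B T s (Ioc 0 R) ∪ closedSols p q A B T s (Ico (-R) 0) ∪ {fun _ => 0}) ∧
    ((∀ s ∉ Icc (lower (p - q) A B T R) (upper (p - q) A B T R),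
        closedSols p q A B T s (Ioc 0 R) = ∅) ∧
      IntegralLE (fun s => closedSols p q A B T s (Ioc 0 R))
        (upper (p - q) A B T R - lower (p - q) A B T R)) ∧
    ((∀ s ∉ Icc (lower (p - q) (fun t => (-1) ^ (p - q) * A t) B T R)
          (upper (p - q) (fun t => (-1) ^ (p - q) * A t) B T R),
        closedSols p q A B T s (Ico (-R) 0) = ∅) ∧
      IntegralLE (fun s => closedSols p q A B T s (Ico (-R) 0))
        (upper (p - q) (fun t => (-1) ^ (p - q) * A t) B T R -
          lower (p - q) (fun t => (-1) ^ (p - q) * A t) B T R)) ∧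
    upper (p - q) A B T R - lower (p - q) A B T R =
      (∫ t in (0:ℝ)..T, |A t|) / T * R ^ (p - q) ∧
    upper (p - q) (fun t => (-1) ^ (p - q) * A t) B T R -
        lower (p - q) (fun t => (-1) ^ (p - q) * A t) B T R =
      (∫ t in (0:ℝ)..T, |A t|) / T * R ^ (p - q) := by
  obtain ⟨k, rfl⟩ : ∃ k, q = k + 1 := ⟨q - 1, by omega⟩
  obtain ⟨l, rfl⟩ : ∃ l, p = k + 1 + l := ⟨p - (k + 1), by omega⟩
  have hk : 1 ≤ k := by omega
  have hl : 1 ≤ l := by omega
  rw [show k + 1 + l - (k + 1) = l by omega]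
  have hA' : Continuous fun t => (-1 : ℝ) ^ l * A t := continuous_const.mul hA
  have hAA : Continuous fun t => (-1 : ℝ) ^ k * ((-1) ^ l * A t) := continuous_const.mul hA'
  have hBB : Continuous fun t => (-1 : ℝ) ^ k * B t := continuous_const.mul hB
  have habs : ∀ t, |(-1 : ℝ) ^ l * A t| = |A t| := fun t => by
    rw [abs_mul, abs_pow, abs_neg, abs_one, one_pow, one_mul]
  have habs' : ∀ t, |(-1 : ℝ) ^ k * ((-1) ^ l * A t)| = |A t| := fun t => by
    rw [abs_mul, abs_pow, abs_neg, abs_one, one_pow, one_mul, habs]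
  have hul := upper_sub_lower (l := l) hA hB T R
  have hul' := upper_sub_lower (l := l) hA' hB T R
  simp only [habs] at hul'
  have hkk : ((-1 : ℝ) ^ k) * (-1) ^ k = 1 := by rw [← mul_pow]; simp
  refine ⟨fun s => ?_, ⟨fun s hs => ?_, ?_⟩, ⟨fun s hs => ?_, ?_⟩, hul, hul'⟩
  · -- the trichotomy
    apply Subset.antisymm
    · rintro g ⟨φ, h1, h2, h3, rfl⟩
      set f : ℝ → ℝ → ℝ := fun t x => A t * x ^ (k + 1 + l) + (B t + s) * x ^ (k + 1) with hf
      have hlip : ∃ K : ℝ≥0, ∀ t ∈ Icc 0 T, LipschitzOnWith K (f t) (Icc (-R) R) := by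
        have hc : Continuous fun z : ℝ × ℝ => A z.1 * (((k + 1 + l : ℕ) : ℝ) * z.2 ^ (k + 1 + l - 1)) +
            (B z.1 + s) * (((k + 1 : ℕ) : ℝ) * z.2 ^ (k + 1 - 1)) := by fun_prop
        obtain ⟨M, hM⟩ := (isCompact_Icc.prod isCompact_Icc).exists_bound_of_continuousOn
          (s := Icc 0 T ×ˢ Icc (-R) R) hc.continuousOn
        refine ⟨Real.toNNReal M, fun t ht => ?_⟩
        apply Convex.lipschitzOnWith_of_nnnorm_hasDerivWithin_le (𝕜 := ℝ)
          (f' := fun x => A t * (((k + 1 + l : ℕ) : ℝ) * x ^ (k + 1 + l - 1)) +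
            (B t + s) * (((k + 1 : ℕ) : ℝ) * x ^ (k + 1 - 1))) (convex_Icc _ _)
        · intro x _
          exact ((((hasDerivAt_pow (k + 1 + l) x).const_mul (A t)).add
            ((hasDerivAt_pow (k + 1) x).const_mul (B t + s)))).hasDerivWithinAt
        · intro x hx
          have h4 := hM (t, x) ⟨ht, hx⟩
          have h5 : 0 ≤ M := (norm_nonneg _).trans h4
          rw [← NNReal.coe_le_coe, coe_nnnorm, Real.coe_toNNReal _ h5]
          exact h4
      obtain ⟨K, hK⟩ := hlip
      have hφ : TH525.PU.IsClosedSol T (Icc (-R) R) f 0 φ := by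
        refine ⟨fun t ht => ?_, h2, h3⟩
        simpa [hf] using h1 t ht
      have h0 : TH525.PU.IsClosedSol T (Icc (-R) R) f 0 (fun _ => 0) := by
        refine ⟨fun t ht => ?_, rfl, fun t _ => ⟨by linarith, hR.le⟩⟩
        have : f t 0 + 0 = 0 := by simp [hf]
        rw [this]
        exact hasDerivWithinAt_const _ _ _
      rcases lt_trichotomy (φ 0) 0 with h | h | h
      · left; right
        have h4 := TH525.PU.ordered hK hφ h0 h
        exact ⟨φ, h1, h2, fun t ht => ⟨(h3 t ht).1, h4 t ht⟩, rfl⟩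
      · right
        have h4 := TH525.PU.eq_sol hK hT hφ h0 h
        rw [mem_singleton_iff]
        funext x
        exact h4 x.2
      · left; left
        have h4 := TH525.PU.ordered hK h0 hφ h
        exact ⟨φ, h1, h2, fun t ht => ⟨h4 t ht, (h3 t ht).2⟩, rfl⟩
    · rintro g ((⟨φ, h1, h2, h3, rfl⟩ | ⟨φ, h1, h2, h3, rfl⟩) | h)
      · exact ⟨φ, h1, h2, fun t ht => ⟨by linarith [(h3 t ht).1], (h3 t ht).2⟩, rfl⟩
      · exact ⟨φ, h1, h2, fun t ht => ⟨(h3 t ht).1, by linarith [(h3 t ht).2]⟩, rfl⟩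
      · rw [mem_singleton_iff] at h
        subst h
        refine ⟨fun _ => 0, fun t _ => ?_, rfl, fun t _ => ⟨by linarith, hR.le⟩, rfl⟩
        have : A t * 0 ^ (k + 1 + l) + (B t + s) * 0 ^ (k + 1) = 0 := by
          simp
        rw [this]
        exact hasDerivWithinAt_const _ _ _
  · rw [pos_eq, Set.eq_empty_iff_forall_notMem]
    rintro _ ⟨φ, hφ, rfl⟩
    exact hs (TH275.QM.Abel.pos_range hl hk hT hA hB hφ)
  · obtain ⟨g, h1, h2, h3⟩ := TH275.QM.Abel.pos_mean (R := R) hl hk hR hT hA hB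
    refine ⟨g, h1, fun s => ?_, ?_⟩
    · simp only [pos_eq]
      exact h2 s
    · rw [hul]; exact h3
  · rw [Set.eq_empty_iff_forall_notMem]
    rintro _ ⟨φ, h1, h2, h3, rfl⟩
    apply hs
    obtain ⟨r1, r2⟩ := TH275.QM.Abel.pos_range hl hk hT hAA hBB (refl h1 h2 h3)
    rcases neg_one_pow_eq_or ℝ k with hk1 | hk1
    · simp only [hk1, one_mul] at r1 r2
      exact ⟨r1, r2⟩
    · simp only [hk1, neg_mul, one_mul, neg_neg] at r1 r2
      unfold lower upper
      constructor
      · have e : ∫ t in (0:ℝ)..T, (-B t - max ((-1) ^ l * A t) 0 * R ^ l) =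
            -∫ t in (0:ℝ)..T, (B t + max ((-1) ^ l * A t) 0 * R ^ l) := by
          rw [← intervalIntegral.integral_neg]
          apply intervalIntegral.integral_congr
          intro t _
          simp only
          ring
        rw [e, neg_div, neg_neg] at r2
        linarith
      · have e : ∫ t in (0:ℝ)..T, (-B t + max (-((-1) ^ l * A t)) 0 * R ^ l) =
            -∫ t in (0:ℝ)..T, (B t - max (-((-1) ^ l * A t)) 0 * R ^ l) := by
          rw [← intervalIntegral.integral_neg]
          apply intervalIntegral.integral_congr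
          intro t _
          simp only
          ring
        rw [e, neg_div, neg_neg] at r1
        linarith
  · obtain ⟨g, h1, h2, h3⟩ := TH275.QM.Abel.pos_mean (R := R) hl hk hR hT hAA hBB
    refine ⟨fun s => g ((-1) ^ k * s), h1.comp (measurable_const_mul _), fun s => ?_, ?_⟩
    · refine le_trans ?_ (h2 ((-1) ^ k * s))
      refine ENat.toENNReal_le.2 ?_
      refine Set.encard_le_encard_of_injOn (f := fun w : Icc 0 T → ℝ => fun x => -w x) ?_ ?_
      · rintro _ ⟨φ, g1, g2, g3, rfl⟩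
        exact ⟨_, refl g1 g2 g3, rfl⟩
      · intro w _ w' _ he
        funext x
        exact neg_injective (congrFun he x)
    · have e : ∫⁻ s, g ((-1) ^ k * s) = ∫⁻ s, g s := by
        rcases neg_one_pow_eq_or ℝ k with hk1 | hk1
        · simp only [hk1, one_mul]
        · simp only [hk1, neg_mul, one_mul]
          exact lintegral_neg_eq_self g
      rw [e, hul']
      simp only [habs'] at h3
      exact h3

end Pool.Agent.Results.MP_bb703b_an.MeanAtMostThree
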